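import Pool.Agent.Lib.MP_b1a3a4_al.MVS.Interfaces

/-!
# MVS, module CHAIN (6.4)
-/

set_option linter.all false

namespace Pool.Agent.Lib.MP_b1a3a4_al.MVS.H88

open scoped commutatorElement

section LCS

variable {G : Type} [Group G]

lemma lcs_le (H : Subgroup G) (w : ℕ) : lcs H w ≤ H := by
  induction w with
  | zero => exact le_rfl
  | succ w ih =>
    rw [lcs, Subgroup.commutator_le]
    intro a ha b hb
    rw [commutatorElement_def]
    exact mul_mem (mul_mem (mul_mem (ih ha) hb) (inv_mem (ih ha))) (inv_mem hb)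

lemma lcs_conj (H : Subgroup G) (w : ℕ) : ∀ h ∈ H, ∀ a ∈ lcs H w, h * a * h⁻¹ ∈ lcs H w := by
  induction w with
  | zero =>
    intro h hh a ha
    exact mul_mem (mul_mem hh ha) (inv_mem hh)
  | succ w ih =>
    intro h hh a ha
    have : lcs H (w + 1) ≤ (lcs H (w + 1)).comap (MulAut.conj h).toMonoidHom := by
      conv_lhs => rw [lcs]
      rw [Subgroup.commutator_le]
      intro x hx y hy
      rw [Subgroup.mem_comap]
      have e : (MulAut.conj h).toMonoidHom ⁅x, y⁆ = ⁅h * x * h⁻¹, h * y * h⁻¹⁆ := by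
        rw [map_commutatorElement]
        rfl
      rw [e, lcs]
      exact Subgroup.commutator_mem_commutator (ih h hh x hx)
        (mul_mem (mul_mem hh hy) (inv_mem hh))
    exact this ha

lemma lcs_succ_le (H : Subgroup G) (w : ℕ) : lcs H (w + 1) ≤ lcs H w := by
  rw [lcs, Subgroup.commutator_le]
  intro a ha b hb
  have e : ⁅a, b⁆ = a * (b * a⁻¹ * b⁻¹) := by
    rw [commutatorElement_def]; group
  rw [e]
  exact mul_mem ha (lcs_conj H w b hb _ (inv_mem ha))

lemma comm_mem_lcs (H : Subgroup G) (w : ℕ) {a b : G} (ha : a ∈ lcs H w) (hb : b ∈ H) :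
    a * b * a⁻¹ * b⁻¹ ∈ lcs H (w + 1) := by
  rw [lcs]
  exact Subgroup.commutator_mem_commutator ha hb

/-- The finite sets `T_w`. -/
lemma exists_fin_gen (H : Subgroup G) (hH : H.FG) (w : ℕ) :
    ∃ T : Finset G, (∀ t ∈ T, t ∈ lcs H w) ∧
      lcs H w ≤ Subgroup.closure (T : Set G) ⊔ lcs H (w + 1) := by
  classical
  obtain ⟨T₀, hT₀⟩ := hH
  induction w with
  | zero =>
    refine ⟨T₀, ?_, ?_⟩
    · intro t ht
      show t ∈ H
      rw [← hT₀]
      exact Subgroup.subset_closure ht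
    · show H ≤ _
      rw [← hT₀]
      exact le_sup_left
  | succ w ih =>
    obtain ⟨T, hT1, hT2⟩ := ih
    have hT0H : ∀ x ∈ T₀, x ∈ H := fun x hx => by
      rw [← hT₀]; exact Subgroup.subset_closure hx
    refine ⟨(T ×ˢ T₀).image (fun p => ⁅p.1, p.2⁆), ?_, ?_⟩
    · intro t ht
      rw [Finset.mem_image] at ht
      obtain ⟨⟨a, b⟩, hab, rfl⟩ := ht
      rw [Finset.mem_product] at hab
      rw [lcs]
      exact Subgroup.commutator_mem_commutator (hT1 a hab.1) (hT0H b hab.2)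
    · set M := Subgroup.closure (((T ×ˢ T₀).image (fun p : G × G => ⁅p.1, p.2⁆) : Finset G) :
        Set G) ⊔ lcs H (w + 1 + 1) with hM
      have hMle : M ≤ lcs H (w + 1) := by
        rw [hM, sup_le_iff, Subgroup.closure_le]
        refine ⟨?_, lcs_succ_le H (w + 1)⟩
        intro t ht
        rw [Finset.mem_coe, Finset.mem_image] at ht
        obtain ⟨⟨a, b⟩, hab, rfl⟩ := ht
        rw [Finset.mem_product] at hab
        show _ ∈ lcs H (w + 1)
        rw [lcs]
        exact Subgroup.commutator_mem_commutator (hT1 a hab.1) (hT0H b hab.2)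
      have hlow : lcs H (w + 1 + 1) ≤ M := le_sup_right
      have hconj : ∀ h ∈ H, ∀ m ∈ M, h * m * h⁻¹ ∈ M := by
        intro h hh m hm
        have h1 := comm_mem_lcs H (w + 1) (hMle hm) hh
        have h2 : h * m * h⁻¹ = (m * h * m⁻¹ * h⁻¹)⁻¹ * m := by group
        rw [h2]
        exact mul_mem (inv_mem (hlow h1)) hm
      -- step 1
      have s1 : ∀ t ∈ T, ∀ x ∈ H, t * x * t⁻¹ * x⁻¹ ∈ M := by
        intro t ht x hx
        rw [← hT₀] at hx
        induction hx using Subgroup.closure_induction with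
        | mem x hx =>
          refine (le_sup_left : _ ≤ M) (Subgroup.subset_closure ?_)
          rw [Finset.mem_coe, Finset.mem_image]
          exact ⟨(t, x), Finset.mem_product.2 ⟨ht, hx⟩, rfl⟩
        | one => simp
        | mul x y hx hy ihx ihy =>
          have hxH : x ∈ H := by rw [← hT₀]; exact hx
          have e : t * (x * y) * t⁻¹ * (x * y)⁻¹ =
              (t * x * t⁻¹ * x⁻¹) * (x * (t * y * t⁻¹ * y⁻¹) * x⁻¹) := by group
          rw [e]
          exact mul_mem ihx (hconj x hxH _ ihy)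
        | inv x hx ihx =>
          have hxH : x ∈ H := by rw [← hT₀]; exact hx
          have e : t * x⁻¹ * t⁻¹ * x⁻¹⁻¹ =
              x⁻¹ * (t * x * t⁻¹ * x⁻¹)⁻¹ * x⁻¹⁻¹ := by group
          rw [e]
          exact hconj _ (inv_mem hxH) _ (inv_mem ihx)
      -- step 2
      let Q : Subgroup G :=
        { carrier := {a | a ∈ H ∧ ∀ h ∈ H, a * h * a⁻¹ * h⁻¹ ∈ M}
          one_mem' := ⟨one_mem _, fun h _ => by simp⟩
          mul_mem' := by
            rintro a b ⟨ha, ha'⟩ ⟨hb, hb'⟩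
            refine ⟨mul_mem ha hb, fun h hh => ?_⟩
            have e : a * b * h * (a * b)⁻¹ * h⁻¹ =
              (a * (b * h * b⁻¹ * h⁻¹) * a⁻¹) * (a * h * a⁻¹ * h⁻¹) := by group
            rw [e]
            exact mul_mem (hconj a ha _ (hb' h hh)) (ha' h hh)
          inv_mem' := by
            rintro a ⟨ha, ha'⟩
            refine ⟨inv_mem ha, fun h hh => ?_⟩
            have e : a⁻¹ * h * a⁻¹⁻¹ * h⁻¹ = a⁻¹ * (a * h * a⁻¹ * h⁻¹)⁻¹ * a⁻¹⁻¹ := by group
            rw [e]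
            exact hconj _ (inv_mem ha) _ (inv_mem (ha' h hh)) }
      have hQ : lcs H w ≤ Q := by
        refine hT2.trans ?_
        rw [sup_le_iff, Subgroup.closure_le]
        refine ⟨?_, ?_⟩
        · intro t ht
          exact ⟨lcs_le H w (hT1 t ht), s1 t ht⟩
        · intro t ht
          exact ⟨lcs_le H (w + 1) ht, fun h hh => hlow (comm_mem_lcs H (w + 1) ht hh)⟩
      conv_lhs => rw [lcs]
      rw [Subgroup.commutator_le]
      intro a ha b hb
      exact (hQ ha).2 b hb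

end LCS

section Main

variable {I : Type} [Fintype I] [DecidableEq I] {L : I → Type} [∀ i, Group (L i)]

/-- The groups reached from `S`. -/
structure Good (U : Finset I) (S : Subgroup (∀ i, L i)) (Pr : Subgroup (∀ i, L i) → Prop)
    (S' : Subgroup (∀ i, L i)) : Prop where
  lo : S ≤ S'
  hi : S' ≤ piS U S
  down : Pr S' → Pr S

lemma single_mem_piS {U : Finset I} {S : Subgroup (∀ i, L i)} {i : I} (hi : i ∈ U) {t : L i}
    (ht : t ∈ pr S i) : (Pi.mulSingle i t : ∀ i, L i) ∈ piS U S := by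
  refine ⟨fun j => ?_, fun j hj => ?_⟩
  · by_cases h : j = i
    · subst h
      rw [Pi.mulSingle_eq_same]
      exact ht
    · rw [Pi.mulSingle_eq_of_ne h]
      exact one_mem _
  · have h : j ≠ i := by rintro rfl; exact hj hi
    exact Pi.mulSingle_eq_of_ne h _

lemma nr_mono {S S' : Subgroup (∀ i, L i)} (h : S ≤ S') (i : I) : nr S i ≤ nr S' i :=
  Subgroup.comap_mono h

lemma mem_nr {S : Subgroup (∀ i, L i)} {i : I} {x : L i} :
    x ∈ nr S i ↔ (Pi.mulSingle i x : ∀ i, L i) ∈ S := Iff.rfl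

/-- adding a finite set of elements -/
lemma good_add {U : Finset I} {S : Subgroup (∀ i, L i)} {Pr : Subgroup (∀ i, L i) → Prop}
    (hstep : ∀ S', S ≤ S' → S' ≤ piS U S → ∀ i ∈ U, ∀ t₀ ∈ pr S i,
      (∀ x ∈ pr S i, t₀ * x * t₀⁻¹ * x⁻¹ ∈ nr S' i) →
      Pr (S' ⊔ Subgroup.zpowers (Pi.mulSingle i t₀ : ∀ i, L i)) → Pr S')
    {i : I} (hi : i ∈ U) {S' : Subgroup (∀ i, L i)} (hS' : Good U S Pr S') (T : Finset (L i)) :
    (∀ t ∈ T, t ∈ pr S i ∧ ∀ x ∈ pr S i, t * x * t⁻¹ * x⁻¹ ∈ nr S' i) →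
    ∃ S'', S' ≤ S'' ∧ Good U S Pr S'' ∧ ∀ t ∈ T, t ∈ nr S'' i := by
  classical
  induction T using Finset.induction_on with
  | empty => intro _; exact ⟨S', le_rfl, hS', by simp⟩
  | insert a T ha ih =>
    intro hT
    obtain ⟨S'', h1, h2, h3⟩ := ih (fun t ht => hT t (Finset.mem_insert_of_mem ht))
    have ha' := hT a (Finset.mem_insert_self a T)
    refine ⟨S'' ⊔ Subgroup.zpowers (Pi.mulSingle i a : ∀ i, L i), h1.trans le_sup_left,
      ⟨h2.lo.trans le_sup_left, ?_, ?_⟩, ?_⟩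
    · refine sup_le h2.hi ?_
      rw [Subgroup.zpowers_le]
      exact single_mem_piS hi ha'.1
    · intro hP
      exact h2.down (hstep S'' h2.lo h2.hi i hi a ha'.1
        (fun x hx => nr_mono h1 i (ha'.2 x hx)) hP)
    · intro t ht
      rw [Finset.mem_insert] at ht
      rcases ht with rfl | ht
      · exact (le_sup_right : _ ≤ S'' ⊔ _) (Subgroup.mem_zpowers _)
      · exact nr_mono (le_sup_left : S'' ≤ _) i (h3 t ht)

lemma good_level {U : Finset I} {S : Subgroup (∀ i, L i)} {Pr : Subgroup (∀ i, L i) → Prop}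
    (hstep : ∀ S', S ≤ S' → S' ≤ piS U S → ∀ i ∈ U, ∀ t₀ ∈ pr S i,
      (∀ x ∈ pr S i, t₀ * x * t₀⁻¹ * x⁻¹ ∈ nr S' i) →
      Pr (S' ⊔ Subgroup.zpowers (Pi.mulSingle i t₀ : ∀ i, L i)) → Pr S')
    {i : I} (hi : i ∈ U) (hfg : (pr S i).FG) (w : ℕ) {S' : Subgroup (∀ i, L i)}
    (hS' : Good U S Pr S') (hw : lcs (pr S i) w ≤ nr S' i) :
    ∃ S'', S' ≤ S'' ∧ Good U S Pr S'' ∧ pr S i ≤ nr S'' i := by
  induction w generalizing S' with
  | zero => exact ⟨S', le_rfl, hS', hw⟩
  | succ w ih =>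
    obtain ⟨T, hT1, hT2⟩ := exists_fin_gen (pr S i) hfg w
    obtain ⟨S'', h1, h2, h3⟩ := good_add hstep hi hS' T (fun t ht =>
      ⟨lcs_le _ _ (hT1 t ht), fun x hx => hw (comm_mem_lcs _ w (hT1 t ht) hx)⟩)
    have h4 : lcs (pr S i) w ≤ nr S'' i := by
      refine hT2.trans (sup_le ?_ (hw.trans (nr_mono h1 i)))
      rw [Subgroup.closure_le]
      exact h3
    obtain ⟨S3, g1, g2, g3⟩ := ih h2 h4
    exact ⟨S3, h1.trans g1, g2, g3⟩

lemma good_all {U : Finset I} {S : Subgroup (∀ i, L i)} {Pr : Subgroup (∀ i, L i) → Prop}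
    (hU : ∀ s ∈ S, ∀ i, i ∉ U → s i = 1)
    (hstep : ∀ S', S ≤ S' → S' ≤ piS U S → ∀ i ∈ U, ∀ t₀ ∈ pr S i,
      (∀ x ∈ pr S i, t₀ * x * t₀⁻¹ * x⁻¹ ∈ nr S' i) →
      Pr (S' ⊔ Subgroup.zpowers (Pi.mulSingle i t₀ : ∀ i, L i)) → Pr S')
    (hfg : ∀ j ∈ U, (pr S j).FG) (c : ℕ) (hc : ∀ j ∈ U, lcs (pr S j) c ≤ nr S j)
    (V : Finset I) : V ⊆ U → ∃ S'', Good U S Pr S'' ∧ ∀ j ∈ V, pr S j ≤ nr S'' j := by
  induction V using Finset.induction_on with
  | empty =>
    intro _
    refine ⟨S, ⟨le_rfl, ?_, id⟩, by simp⟩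
    intro s hs
    exact ⟨fun j => ⟨s, hs, rfl⟩, fun j hj => hU s hs j hj⟩
  | insert a V ha ih =>
    intro hV
    obtain ⟨S', h1, h2⟩ := ih (fun x hx => hV (Finset.mem_insert_of_mem hx))
    have haU : a ∈ U := hV (Finset.mem_insert_self a V)
    obtain ⟨S'', g1, g2, g3⟩ := good_level hstep haU (hfg a haU) c h1
      ((hc a haU).trans (nr_mono h1.lo a))
    refine ⟨S'', g2, ?_⟩
    intro j hj
    rw [Finset.mem_insert] at hj
    rcases hj with rfl | hj
    · exact g3
    · exact (h2 j hj).trans (nr_mono g1 j)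

lemma mem_of_single (S : Subgroup (∀ i, L i)) (V : Finset I) :
    ∀ x : ∀ i, L i, (∀ i, i ∉ V → x i = 1) → (∀ i ∈ V, x i ∈ nr S i) → x ∈ S := by
  induction V using Finset.induction_on with
  | empty =>
    intro x hx _
    have : x = 1 := by funext i; exact hx i (by simp)
    rw [this]
    exact one_mem _
  | insert a V ha ih =>
    intro x hx hx'
    have e : x = (Pi.mulSingle a (x a) : ∀ i, L i) * Function.update x a 1 := by
      funext i
      by_cases h : i = a
      · subst h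
        simp
      · simp [h]
    rw [e]
    refine mul_mem (hx' a (Finset.mem_insert_self a V)) (ih _ ?_ ?_)
    · intro i hi
      by_cases h : i = a
      · subst h
        simp
      · rw [Function.update_of_ne h]
        exact hx i (by simp [h, hi])
    · intro i hi
      have h : i ≠ a := by rintro rfl; exact ha hi
      rw [Function.update_of_ne h]
      exact hx' i (Finset.mem_insert_of_mem hi)

end Main

theorem chain : ChainStatement := by
  intro I _ _ L _ U S hU hfg hc Pr hstep hP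
  obtain ⟨c, hc⟩ := hc
  obtain ⟨S'', h1, h2⟩ := good_all hU hstep hfg c hc U (le_refl U)
  refine h1.down ?_
  have : S'' = piS U S := by
    refine le_antisymm h1.hi ?_
    intro x hx
    exact mem_of_single S'' U x hx.2 (fun i hi => h2 i hi (hx.1 i))
  rw [this]
  exact hP

end Pool.Agent.Lib.MP_b1a3a4_al.MVS.H88
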