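import Pool.Agent.Lib.MP_b1a3a4_al.MVS.Interfaces

/-!
# MVS, module MONOID (4.3)
-/

set_option linter.all false

namespace Pool.Agent.Lib.MP_b1a3a4_al.MVS.H88

open MonoidAlgebra

section pos

variable {k G : Type} [CommRing k] [Group G] (χ : Chr G)

/-- positions of a ring element are `≥ a` -/
def LE1 (a : ℝ) (r : MonoidAlgebra k G) : Prop := ∀ g ∈ r.coeff.support, a ≤ val χ g

lemma LE1_zero (a : ℝ) : LE1 χ a (0 : MonoidAlgebra k G) := by
  intro g hg
  simp at hg

lemma LE1_mono {a b : ℝ} (h : a ≤ b) {r : MonoidAlgebra k G} (hr : LE1 χ b r) : LE1 χ a r :=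
  fun g hg => h.trans (hr g hg)

lemma LE1_add {a : ℝ} {r r' : MonoidAlgebra k G} (h : LE1 χ a r) (h' : LE1 χ a r') :
    LE1 χ a (r + r') := by
  classical
  intro g hg
  rw [coeff_add] at hg
  rcases Finset.mem_union.1 (Finsupp.support_add hg) with h1 | h1
  · exact h g h1
  · exact h' g h1

lemma LE1_mul {a b : ℝ} {r r' : MonoidAlgebra k G} (h : LE1 χ a r) (h' : LE1 χ b r') :
    LE1 χ (a + b) (r * r') := by
  classical
  intro g hg
  have := support_coeff_mul_subset _ _ hg
  rw [Finset.mem_mul] at this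
  obtain ⟨x, hx, y, hy, rfl⟩ := this
  rw [val_mul]
  exact add_le_add (h x hx) (h' y hy)

lemma LE1_single (g : G) (c : k) : LE1 χ (val χ g) (single g c) := by
  intro h hh
  have := Finsupp.support_single_subset hh
  rw [Finset.mem_singleton] at this
  rw [this]

lemma LE1_bdd (r : MonoidAlgebra k G) : ∃ D : ℝ, 0 ≤ D ∧ LE1 χ (-D) r := by
  refine ⟨∑ g ∈ r.coeff.support, |val χ g|, Finset.sum_nonneg fun g _ => abs_nonneg _, ?_⟩
  intro g hg
  have := Finset.single_le_sum (f := fun g => |val χ g|) (fun g _ => abs_nonneg _) hg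
  have h2 := neg_abs_le (val χ g)
  linarith

lemma LB_iff {a : ℝ} {X : Type} {v : X →₀ MonoidAlgebra k G} : LB χ a v ↔ ∀ x, LE1 χ a (v x) :=
  Iff.rfl

lemma LB_zero (a : ℝ) {X : Type} : LB χ a (0 : X →₀ MonoidAlgebra k G) :=
  fun x => LE1_zero χ a

lemma LB_mono {a b : ℝ} (h : a ≤ b) {X : Type} {v : X →₀ MonoidAlgebra k G} (hr : LB χ b v) :
    LB χ a v := fun x => LE1_mono χ h (hr x)

lemma LB_add {a : ℝ} {X : Type} {v w : X →₀ MonoidAlgebra k G} (h : LB χ a v) (h' : LB χ a w) :
    LB χ a (v + w) := fun x => LE1_add χ (h x) (h' x)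

lemma LB_smul {a b : ℝ} {X : Type} {r : MonoidAlgebra k G} {w : X →₀ MonoidAlgebra k G}
    (h : LE1 χ a r) (h' : LB χ b w) : LB χ (a + b) (r • w) := by
  intro x
  exact LE1_mul χ h (h' x)

lemma LB_sum {a : ℝ} {X ι : Type} (s : Finset ι) (f : ι → (X →₀ MonoidAlgebra k G))
    (h : ∀ i ∈ s, LB χ a (f i)) : LB χ a (∑ i ∈ s, f i) := by
  classical
  induction s using Finset.induction_on with
  | empty => rw [Finset.sum_empty]; exact LB_zero χ a
  | insert i s hi ih =>
    rw [Finset.sum_insert hi]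
    exact LB_add χ (h i (Finset.mem_insert_self i s))
      (ih fun j hj => h j (Finset.mem_insert_of_mem hj))

lemma LB_bdd {X : Type} (v : X →₀ MonoidAlgebra k G) : ∃ D : ℝ, 0 ≤ D ∧ LB χ (-D) v := by
  induction v using Finsupp.induction_linear with
  | zero => exact ⟨0, le_rfl, LB_zero χ _⟩
  | add v w hv hw =>
    obtain ⟨D, h0, h⟩ := hv
    obtain ⟨D', h0', h'⟩ := hw
    refine ⟨D + D', add_nonneg h0 h0', LB_add χ (LB_mono χ ?_ h) (LB_mono χ ?_ h')⟩ <;> linarith
  | single x a =>
    classical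
    obtain ⟨D, h0, h⟩ := LE1_bdd χ a
    refine ⟨D, h0, fun y => ?_⟩
    show LE1 χ (-D) (Finsupp.single x a y)
    rw [Finsupp.single_apply]
    split_ifs
    · exact h
    · exact LE1_zero χ _

/-- displacement bound -/
lemma disp {X Y : Type} [Finite X]
    (f : (X →₀ MonoidAlgebra k G) →ₗ[MonoidAlgebra k G] (Y →₀ MonoidAlgebra k G)) :
    ∃ D : ℝ, 0 ≤ D ∧ ∀ a v, LB χ a v → LB χ (a - D) (f v) := by
  classical
  haveI := Fintype.ofFinite X
  choose D hD0 hD using fun x : X => LB_bdd χ (f (Finsupp.single x 1))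
  refine ⟨∑ x, D x, Finset.sum_nonneg fun x _ => hD0 x, ?_⟩
  intro a v hv
  have e : f v = ∑ x, v x • f (Finsupp.single x 1) := by
    conv_lhs => rw [← Finsupp.univ_sum_single v]
    rw [map_sum]
    refine Finset.sum_congr rfl fun x _ => ?_
    rw [← map_smul, Finsupp.smul_single, smul_eq_mul, mul_one]
  rw [e]
  refine LB_sum χ _ _ fun x _ => ?_
  refine LB_mono χ ?_ (LB_smul χ (hv x) (hD x))
  have := Finset.single_le_sum (f := D) (fun x _ => hD0 x) (Finset.mem_univ x)
  linarith

/-- `k[G_χ] → k[G]` -/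
noncomputable abbrev inc (k : Type) [CommRing k] {G : Type} [Group G] (χ : Chr G) :
    MonoidAlgebra k (posMon χ) →+* MonoidAlgebra k G := gmap k (posMon χ).subtype

lemma inc_single (g : posMon χ) (c : k) : inc k χ (single g c) = single (g : G) c := by
  simp [inc, gmap]

lemma inc_LE1 (a : MonoidAlgebra k (posMon χ)) : LE1 χ 0 (inc k χ a) := by
  induction a using MonoidAlgebra.induction_linear with
  | zero => rw [map_zero]; exact LE1_zero χ 0
  | add x y hx hy => rw [map_add]; exact LE1_add χ hx hy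
  | single g c =>
    rw [inc_single]
    exact LE1_mono χ g.2 (LE1_single χ (g : G) c)

lemma inc_injective : Function.Injective (inc k χ) := by
  intro a b h
  exact MonoidAlgebra.mapDomain_injective (Subtype.val_injective) h

/-- coordinates with position `≥ 0` -/
noncomputable def back (b : MonoidAlgebra k G) : MonoidAlgebra k (posMon χ) :=
  comapDomain (posMon χ).subtype Subtype.val_injective b

lemma back_zero : back χ (0 : MonoidAlgebra k G) = 0 := by simp [back]

lemma inc_back {b : MonoidAlgebra k G} (hb : LE1 χ 0 b) : inc k χ (back χ b) = b := by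
  refine mapDomain_comapDomain ?_ _
  intro g hg
  exact ⟨⟨g, hb g hg⟩, rfl⟩

lemma aug_inc (a : MonoidAlgebra k (posMon χ)) : aug k G (inc k χ a) = aug k (posMon χ) a := by
  induction a using MonoidAlgebra.induction_linear with
  | zero => rw [map_zero, map_zero, map_zero]
  | add x y hx hy => rw [map_add, map_add, map_add, hx, hy]
  | single g c => rw [inc_single, aug_single, aug_single]

end pos

section main

variable {k G : Type} [CommRing k] [Group G] (χ : Chr G)

/-- The restricted modules. -/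
abbrev MM (k : Type) [CommRing k] {G : Type} [Group G] (χ : Chr G) (X : Type) : Type :=
  Rst (inc k χ) (X →₀ MonoidAlgebra k G)

/-- The restricted differential. -/
noncomputable def dM {X Y : Type}
    (f : (X →₀ MonoidAlgebra k G) →ₗ[MonoidAlgebra k G] (Y →₀ MonoidAlgebra k G)) :
    MM k χ X →ₗ[MonoidAlgebra k (posMon χ)] MM k χ Y where
  toFun := f
  map_add' := f.map_add
  map_smul' := fun a v => f.map_smul (inc k χ a) v

/-- The restricted augmentation. -/
noncomputable def eM {X : Type}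
    (f : (X →₀ MonoidAlgebra k G) →ₗ[MonoidAlgebra k G] Triv k G) :
    MM k χ X →ₗ[MonoidAlgebra k (posMon χ)] Triv k (posMon χ) where
  toFun v := (show k from f v)
  map_add' := f.map_add
  map_smul' := fun a v => by
    show (show k from f (inc k χ a • (show X →₀ MonoidAlgebra k G from v))) =
      aug k (posMon χ) a * (show k from f v)
    have h := f.map_smul (inc k χ a) (show X →₀ MonoidAlgebra k G from v)
    rw [h, triv_smul, aug_inc]

/-- The filtration. -/
noncomputable def EM (κ : ℝ) (X : Type) (r : ℕ) : Submodule (MonoidAlgebra k (posMon χ)) (MM k χ X) where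
  carrier := {v | LB χ (-(r * κ)) (show X →₀ MonoidAlgebra k G from v)}
  zero_mem' := LB_zero χ _
  add_mem' := fun h h' => LB_add χ h h'
  smul_mem' := fun a v h => by
    have := LB_smul χ (inc_LE1 χ a) h
    rw [zero_add] at this
    exact this

lemma mem_EM {κ : ℝ} {X : Type} {r : ℕ} {v : MM k χ X} :
    v ∈ EM χ κ X r ↔ LB χ (-(r * κ)) (show X →₀ MonoidAlgebra k G from v) := Iff.rfl

/-- multiplication of all coordinates by `u` from the right -/
noncomputable def phi (X : Type) (u : MonoidAlgebra k G) :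
    (X →₀ MonoidAlgebra k (posMon χ)) →ₗ[MonoidAlgebra k (posMon χ)] MM k χ X where
  toFun w := (show X →₀ MonoidAlgebra k G from
    w.mapRange (fun a => inc k χ a * u) (by rw [map_zero, zero_mul]))
  map_add' := by
    intro v w
    refine Finsupp.ext fun x => ?_
    show inc k χ ((v + w) x) * u = inc k χ (v x) * u + inc k χ (w x) * u
    rw [Finsupp.add_apply, map_add, add_mul]
  map_smul' := by
    intro a w
    refine Finsupp.ext fun x => ?_
    show inc k χ ((a • w) x) * u = inc k χ a * (inc k χ (w x) * u)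
    rw [Finsupp.smul_apply, smul_eq_mul, map_mul, mul_assoc]

lemma phi_apply (X : Type) (u : MonoidAlgebra k G) (w : X →₀ MonoidAlgebra k (posMon χ)) (x : X) :
    (show X →₀ MonoidAlgebra k G from phi χ X u w) x = inc k χ (w x) * u := rfl

lemma single_inv_mul (g : G) : (single g (1 : k)) * single g⁻¹ (1 : k) = 1 := by
  rw [single_mul_single, mul_inv_cancel, mul_one, one_def]

lemma single_mul_inv (g : G) : (single g⁻¹ (1 : k)) * single g (1 : k) = 1 := by
  rw [single_mul_single, inv_mul_cancel, mul_one, one_def]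

lemma EM_free (g₀ : G) (X : Type) (r : ℕ) :
    Nonempty (EM (k := k) χ (val χ g₀) X r ≃ₗ[MonoidAlgebra k (posMon χ)]
      (X →₀ MonoidAlgebra k (posMon χ))) := by
  set u : MonoidAlgebra k G := single (g₀ ^ r)⁻¹ 1 with hu
  set u' : MonoidAlgebra k G := single (g₀ ^ r) 1 with hu'
  have huu : u * u' = 1 := single_mul_inv _
  have huu' : u' * u = 1 := single_inv_mul _
  have hL : LE1 χ (-(r * val χ g₀)) u := by
    have := LE1_single χ (g₀ ^ r)⁻¹ (1 : k)
    rw [val_inv, val_pow] at this
    exact this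
  have hL' : LE1 χ (r * val χ g₀) u' := by
    have := LE1_single χ (g₀ ^ r) (1 : k)
    rw [val_pow] at this
    exact this
  have hmem : ∀ w, phi χ X u w ∈ EM χ (val χ g₀) X r := by
    intro w x
    have := LE1_mul χ (inc_LE1 χ (w x)) hL
    rw [zero_add] at this
    exact this
  refine ⟨(LinearEquiv.ofBijective ((phi χ X u).codRestrict (EM χ (val χ g₀) X r) hmem)
    ⟨?_, ?_⟩).symm⟩
  · intro w w' h
    refine Finsupp.ext fun x => ?_
    have h1 : phi χ X u w = phi χ X u w' := congrArg Subtype.val h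
    have h2 : inc k χ (w x) * u = inc k χ (w' x) * u := by
      rw [← phi_apply, ← phi_apply, h1]
    apply inc_injective χ
    calc inc k χ (w x) = inc k χ (w x) * u * u' := by rw [mul_assoc, huu, mul_one]
      _ = inc k χ (w' x) * u * u' := by rw [h2]
      _ = inc k χ (w' x) := by rw [mul_assoc, huu, mul_one]
  · rintro ⟨v, hv⟩
    refine ⟨(show X →₀ MonoidAlgebra k G from v).mapRange (fun b => back χ (b * u'))
      (by rw [zero_mul, back_zero]), ?_⟩
    refine Subtype.ext ?_
    refine Finsupp.ext fun x => ?_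
    show inc k χ (back χ ((show X →₀ MonoidAlgebra k G from v) x * u')) * u =
      (show X →₀ MonoidAlgebra k G from v) x
    rw [inc_back, mul_assoc, huu', mul_one]
    have := LE1_mul χ (hv x) hL'
    rw [neg_add_cancel] at this
    exact this

end main

theorem monoid (hfilt : FiltStatement) (hcut : CutStatement) : MonoidStatement := by
  intro k G _ _ χ hχ n F hF hP
  -- an element of positive value
  obtain ⟨g₀, hg₀⟩ : ∃ g₀, 0 < val χ g₀ := by
    by_contra hcon
    push Not at hcon
    apply hχ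
    refine AddMonoidHom.ext fun g => ?_
    have h1 := hcon (Additive.toMul g)
    have h2 := hcon (Additive.toMul g)⁻¹
    rw [val_inv] at h2
    have h3 : val χ (Additive.toMul g) = 0 := by linarith
    exact h3
  obtain ⟨C, hC0, hC⟩ := hcut k G χ n F hF hP
  -- displacement constants of the differentials
  have hdisp : ∀ q, ∃ D : ℝ, 0 ≤ D ∧ (q + 1 ≤ n → ∀ a v, LB χ a v → LB χ (a - D) (F.d q v)) := by
    intro q
    by_cases h : q + 1 ≤ n
    · haveI := hF (q + 1) h
      obtain ⟨D, h0, h1⟩ := disp χ (F.d q)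
      exact ⟨D, h0, fun _ => h1⟩
    · exact ⟨0, le_rfl, fun h' => absurd h' h⟩
  choose D hD0 hD using hdisp
  obtain ⟨c, hc⟩ : ∃ c : ℕ, C + ∑ q ∈ Finset.range n, D q ≤ c * val χ g₀ := by
    obtain ⟨c, hc⟩ := exists_nat_ge ((C + ∑ q ∈ Finset.range n, D q) / val χ g₀)
    exact ⟨c, (div_le_iff₀ hg₀).1 hc⟩
  have hsum0 : 0 ≤ ∑ q ∈ Finset.range n, D q := Finset.sum_nonneg fun q _ => hD0 q
  refine hfilt (MonoidAlgebra k (posMon χ)) n (Triv k (posMon χ)) (fun q => MM k χ (F.X q))
    (fun q => dM χ (F.d q)) (eM χ F.ε) (fun q r => EM χ (val χ g₀) (F.X q) r) c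
    ?_ ?_ ?_ ?_ ?_ ?_ ?_ ?_
  · intro q z
    exact F.isCx q z
  · intro z
    exact F.ε_d z
  · intro q r r' hr v hv
    refine LB_mono χ ?_ hv
    have : (r : ℝ) * val χ g₀ ≤ r' * val χ g₀ :=
      mul_le_mul_of_nonneg_right (by exact_mod_cast hr) hg₀.le
    linarith
  · intro q hq r
    exact ⟨F.X q, hF q hq, EM_free χ g₀ (F.X q) r⟩
  · intro q hq r z hz
    have h1 := hD q hq _ _ hz
    refine LB_mono χ ?_ h1
    have h2 : D q ≤ ∑ q ∈ Finset.range n, D q :=
      Finset.single_le_sum (fun q _ => hD0 q) (Finset.mem_range.2 (by omega))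
    push_cast
    linarith
  · obtain ⟨v, hv⟩ := F.ε_surj (show Triv k G from (1 : k))
    obtain ⟨D', hD0', hD'⟩ := LB_bdd χ v
    obtain ⟨r₀, hr₀⟩ := exists_nat_ge (D' / val χ g₀)
    refine ⟨r₀, fun a => ⟨(show F.X 0 →₀ MonoidAlgebra k G from
      (single (1 : G) (show k from a) : MonoidAlgebra k G) • v), ?_, ?_⟩⟩
    · have h1 := LB_smul χ (LE1_single χ (1 : G) (show k from a)) hD'
      refine LB_mono χ ?_ h1
      rw [val_one]
      have := (div_le_iff₀ hg₀).1 hr₀
      linarith
    · show (show k from F.ε ((single (1 : G) (show k from a) : MonoidAlgebra k G) • v)) = a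
      rw [F.ε.map_smul, hv, triv_smul, aug_single]
      exact mul_one _
  · intro hn r z hz hez
    obtain ⟨b, hb⟩ := (F.ex0 z).1 hez
    obtain ⟨b', h1, h2, -⟩ := hC 0 hn b (r * val χ g₀) (by rw [hb]; exact hz)
    refine ⟨b', LB_mono χ ?_ h2, ?_⟩
    · push_cast
      linarith
    · show F.d 0 b' = z
      rw [h1, hb]
  · intro q hn r z hz hez
    obtain ⟨b, hb⟩ := (F.ex q z).1 hez
    obtain ⟨b', h1, h2, -⟩ := hC (q + 1) hn b (r * val χ g₀) (by rw [hb]; exact hz)
    refine ⟨b', LB_mono χ ?_ h2, ?_⟩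
    · push_cast
      linarith
    · show F.d (q + 1) b' = z
      rw [h1, hb]

end Pool.Agent.Lib.MP_b1a3a4_al.MVS.H88
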